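import Pool.Agent.H72.PRK.S2
import Pool.Agent.H72.T1.LSA
import Pool.Agent.H44.T1.LSQ

/-!
# PRK, IRLK: at a place where `f` is irreducible of odd degree every class of square norm is trivial
-/

set_option autoImplicit false

namespace Pool.PRK

open Polynomial Matrix Pool.HYP Pool.TOW Pool.AVS Pool.T1 IsDedekindDomain

namespace IRLK63

lemma unif {L : Type} [Field L] {O : ValuationSubring L} {π : L} (h : Loc L O π) : Unif O π := by
  refine ⟨h.pi_ne, h.pi_mem, ?_, ?_⟩
  · rw [h.unif π h.pi_mem h.pi_ne, div_self h.pi_ne]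
    exact one_mem _
  · intro z hz hz'
    have h0 : z ≠ 0 := by
      rintro rfl
      exact hz' (by rw [_root_.inv_zero]; exact zero_mem _)
    exact (h.unif z hz h0).1 hz'

lemma arch {L : Type} [Field L] {O : ValuationSubring L} {π : L} (h : Loc L O π) :
    ∀ x : L, x ≠ 0 → ∃ n : ℤ, UI (O : Set L) (x / π ^ n) := by
  intro x hx
  obtain ⟨n, h1, h2⟩ := h.arch x hx
  exact ⟨n, div_ne_zero hx (zpow_ne_zero _ h.pi_ne), h1, h2⟩

end IRLK63

open IRLK63 LSQ44 in
/-- **IRLK.** -/
theorem irlk (hS : SQLKStmt) : IRLKStmt := by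
  intro L _ O π hloc hcpl f e f₀ α hf hodd he hfe hirr hcop hN
  have hU := unif hloc
  set β : L[X] := α.comp (C e⁻¹ * X) with hβ
  have hαβ : β.comp (C e * X) = α := comp_inv α e he
  have hfm : (f.scaleRoots e).Monic := (monic_scaleRoots_iff e).mpr hf
  have hf₀ : f₀.Monic := by
    have h : (oL O f₀).Monic := by rw [← hfe]; exact hfm
    exact monic_of_injective (f := algebraMap O L) Subtype.val_injective h
  have hdeg : f₀.natDegree = f.natDegree := by
    have h : (oL O f₀).natDegree = f.natDegree := by rw [← hfe, natDegree_scaleRoots]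
    rwa [hf₀.natDegree_map] at h
  have hcopβ : IsCoprime β (oL O f₀) := by
    rw [← hfe, ← coprime_scale f β e he, hαβ]
    exact hcop
  have hNβ : NSq (oL O f₀) β := by
    unfold NSq at hN ⊢
    rw [← hfe, ← H33.norm_scale f β e he, hαβ]
    exact hN
  obtain ⟨s, p, hs, hdiv⟩ := lsa L O π hloc.two.1 hloc.two.2 hU (arch hloc) hloc.fin f₀ β hf₀
    (by rw [hdeg]; exact hodd) hirr hcopβ hNβ π hloc.pi_ne
  have hr : rd O (1 + C (LSA72.pv hU) * p) = 1 := by
    change (1 + C (LSA72.pv hU) * p).map (IsLocalRing.residue O) = 1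
    rw [Polynomial.map_add, Polynomial.map_mul, Polynomial.map_one, map_C, LSA72.res_pv hU, C_0,
      zero_mul, add_zero]
  obtain ⟨s', -, hs'⟩ := hS L O π hloc hcpl f₀ (1 + C (LSA72.pv hU) * p) 1 hf₀
    (by rw [hr]; exact isCoprime_one_left)
    (by rw [hr]; simp [rd])
  have h1 : oL O f₀ ∣ oL O (1 + C (LSA72.pv hU) * p - s' ^ 2) :=
    Polynomial.map_dvd (algebraMap O L) hs'
  have h2 : oL O (1 + C (LSA72.pv hU) * p - s' ^ 2) = 1 + C π * oL O p - oL O s' ^ 2 := by
    change (1 + C (LSA72.pv hU) * p - s' ^ 2).map (algebraMap O L) = _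
    rw [Polynomial.map_sub, Polynomial.map_add, Polynomial.map_mul, Polynomial.map_one, map_C,
      Polynomial.map_pow, LSA72.coe_pv hU]
  rw [h2] at h1
  obtain ⟨t, r, htr⟩ := hs
  have h3 : oL O f₀ ∣ β - (oL O s' * t) ^ 2 := by
    obtain ⟨A, hA⟩ := h1
    obtain ⟨B, hB⟩ := hdiv
    refine ⟨(A + B) * t ^ 2 + β * r * (1 + t * s), ?_⟩
    have h4 : t * s = 1 - r * oL O f₀ := by linear_combination htr
    linear_combination t ^ 2 * hA + t ^ 2 * hB - β * (1 + t * s) * htr
  rw [← hfe] at h3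
  have h5 := (H33.dvd_scale f _ e he).2 h3
  refine ⟨(oL O s' * t).comp (C e * X), ?_⟩
  rw [sub_comp, pow_comp, hαβ] at h5
  exact h5

end Pool.PRK
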