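import Pool.Agent.H63.PRK.IRLK
import Pool.Agent.H70.HYP.NMU

/-!
# PRK, IRDK: the classes at the primes of `T'` and at infinity are classes of divisors of the twists
-/

set_option autoImplicit false

namespace Pool.PRK

open Polynomial Matrix Pool.HYP Pool.TOW Pool.AVS Pool.T1 IsDedekindDomain

namespace IRDK63

/-- The polynomial of the place at infinity. -/
lemma top_lift {R : Type} [CommRing R] [IsDedekindDomain R] {K : Type} [Field K] [Algebra R K]
    [IsFractionRing R K] {O : ValuationSubring K} {π : K} {g : ℕ} {D : Dat R O} {h : ℕ}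
    (hD : D.Ok g) {f : R[X]} (hf : f ∈ Fam π g D h) :
    ∃ p : O[X], p.map (algebraMap O K) = (fk K f).scaleRoots (π ^ h) ∧
      p.map (IsLocalRing.residue O) = D.top := by
  obtain ⟨-, -, -, htm, htd, hti⟩ := hD
  obtain ⟨⟨hm, hd, hL⟩, hT, -, -⟩ := hf
  have hmK : (fk K f).Monic := hm.map _
  have hdK : (fk K f).natDegree = 2 * g + 1 := by rw [hm.natDegree_map, hd]
  have hco : ∀ j, ((fk K f).scaleRoots (π ^ h)).coeff j =
      algebraMap R K (f.coeff j) * π ^ (h * (2 * g + 1 - j)) := by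
    intro j
    rw [coeff_scaleRoots, coeff_map, hdK, ← pow_mul]
  have hmem : ∀ j, ((fk K f).scaleRoots (π ^ h)).coeff j ∈ O := by
    intro j
    rw [hco]
    rcases Nat.lt_or_ge (2 * g + 1) j with h2 | h2
    · rw [coeff_eq_zero_of_natDegree_lt (show f.natDegree < j by omega), map_zero, zero_mul]
      exact O.zero_mem
    · have h3 : algebraMap R K (f.coeff (2 * g + 1 - (2 * g + 1 - j))) *
          π ^ (((2 * g + 1 - j) * h : ℕ) : ℤ) ∈ O := hL (2 * g + 1 - j) (by omega)
      rw [show 2 * g + 1 - (2 * g + 1 - j) = j by omega, zpow_natCast, mul_comm _ h] at h3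
      exact h3
  have hlift : ∃ p : O[X], p.map (algebraMap O K) = (fk K f).scaleRoots (π ^ h) := by
    have h1 : (fk K f).scaleRoots (π ^ h) ∈ lifts (algebraMap O K) := by
      rw [lifts_iff_coeff_lifts]
      intro j
      exact ⟨⟨_, hmem j⟩, rfl⟩
    exact h1
  obtain ⟨p, hp⟩ := hlift
  have hinj : Function.Injective (algebraMap O K) := IsFractionRing.injective O K
  have hpc : ∀ j, ((p.coeff j : O) : K) = algebraMap R K (f.coeff j) *
      π ^ (h * (2 * g + 1 - j)) := by
    intro j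
    rw [← hco, ← hp, coeff_map]
    rfl
  have hpm : p.Monic := by
    apply monic_of_injective hinj
    rw [hp, monic_scaleRoots_iff]
    exact hmK
  have hpd : p.natDegree = 2 * g + 1 := by
    rw [← hpm.natDegree_map (algebraMap O K), hp, natDegree_scaleRoots, hdK]
  have hpt : p.map (IsLocalRing.residue O) = D.top := by
    ext j
    rw [coeff_map]
    rcases Nat.lt_or_ge (2 * g + 1) j with h2 | h2
    · rw [coeff_eq_zero_of_natDegree_lt (show p.natDegree < j by omega),
        coeff_eq_zero_of_natDegree_lt (show D.top.natDegree < j by omega), map_zero]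
    · have h3 := hT (2 * g + 1 - j) (by omega) (p.coeff j)
      rw [show 2 * g + 1 - (2 * g + 1 - j) = j by omega] at h3
      apply h3
      rw [hpc, mul_comm h]
  exact ⟨p, hp, hpt⟩

section Inf

variable {K : Type} [Field K] {O : ValuationSubring K} {π : K} {L : Type} [Field L]
  {O' : ValuationSubring L} {ι : K →+* L}

/-- The map of the valuation rings. -/
def jm (hC : CompI O π L O' ι) : O →+* O' :=
  (ι.comp (algebraMap O K)).codRestrict O' fun x => (hC.mem _).2 x.2

lemma coe_jm (hC : CompI O π L O' ι) (x : O) : algebraMap O' L (jm hC x) = ι (x : K) := rfl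

lemma loc_jm (hC : CompI O π L O' ι) : IsLocalHom (jm hC) := by
  constructor
  intro x hx
  obtain ⟨u, hu⟩ := hx
  have h1 : ι (x : K) * ((u⁻¹ : O'ˣ) : L) = 1 := by
    rw [← coe_jm hC, ← hu]
    change ((u : O') : L) * ((u⁻¹ : O'ˣ) : L) = 1
    exact congrArg Subtype.val (u.mul_inv)
  have h2 : (ι (x : K))⁻¹ ∈ O' := by
    rw [inv_eq_of_mul_eq_one_right h1]
    exact ((u⁻¹ : O'ˣ) : O').2
  have hx0 : (x : K) ≠ 0 := by
    intro h
    rw [h, map_zero, zero_mul] at h1
    exact zero_ne_one h1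
  have h3 : (x : K)⁻¹ ∈ O := by
    rw [← hC.mem, map_inv₀]
    exact h2
  refine IsUnit.of_mul_eq_one (⟨_, h3⟩ : O) ?_
  apply Subtype.ext
  exact mul_inv_cancel₀ hx0

lemma bij_res (hC : CompI O π L O' ι) (φ : IsLocalRing.ResidueField O →+*
    IsLocalRing.ResidueField O')
    (hφ : ∀ x : O, φ (IsLocalRing.residue O x) = IsLocalRing.residue O' (jm hC x)) :
    Function.Bijective φ := by
  refine ⟨φ.injective, fun y => ?_⟩
  obtain ⟨z, rfl⟩ := IsLocalRing.residue_surjective y
  have hU := IRLK63.unif hC.loc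
  obtain ⟨x, hx⟩ := hC.cpl.dense (z : L) (ι π) hC.loc.pi_ne
  have h1 : ι x = (z : L) - ι π * (((z : L) - ι x) / ι π) := by
    rw [mul_div_cancel₀ _ hC.loc.pi_ne]
    ring
  have h2 : ι x ∈ O' := by
    rw [h1]
    exact sub_mem z.2 (mul_mem hC.loc.pi_mem hx)
  have h3 : x ∈ O := (hC.mem x).1 h2
  refine ⟨IsLocalRing.residue O ⟨x, h3⟩, ?_⟩
  rw [hφ]
  have h4 : jm hC ⟨x, h3⟩ = z - LSA72.pv hU * ⟨_, hx⟩ := Subtype.ext h1
  rw [h4, map_sub, map_mul, LSA72.res_pv hU, zero_mul, sub_zero]

lemma irr_inf (hC : CompI O π L O' ι) (p : O[X])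
    (hp : Irreducible (p.map (IsLocalRing.residue O))) :
    Irreducible (rd O' (p.map (jm hC))) := by
  have := loc_jm hC
  set φ := IsLocalRing.ResidueField.map (jm hC) with hφ
  have h1 : ∀ x : O, φ (IsLocalRing.residue O x) = IsLocalRing.residue O' (jm hC x) :=
    fun x => IsLocalRing.ResidueField.map_residue (jm hC) x
  have hb := bij_res hC φ h1
  have h2 : rd O' (p.map (jm hC)) = (p.map (IsLocalRing.residue O)).map φ := by
    change (p.map (jm hC)).map (IsLocalRing.residue O') = _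
    rw [Polynomial.map_map, Polynomial.map_map]
    congr 1
  rw [h2]
  exact (MulEquiv.irreducible_iff (Polynomial.mapEquiv (RingEquiv.ofBijective φ hb))).2 hp

end Inf

end IRDK63

open IRDK63 in
/-- **IRDK.** -/
theorem irdk (h1 : IRLKStmt) (h2 : INOKStmt) : IRDKStmt := by
  intro R _ _ K _ _ _ O π hG g D h hD f hf d hd α hcop hNs L _ O' ι hcase
  have hf' := hf
  obtain ⟨⟨hfm, hfd, hco⟩, htop, -, hT'⟩ := hf'
  have hcop' : IsCoprime (α.map ι) ((fk K f).map ι) := hcop.map (mapRingHom ι)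
  have hN' : NSq ((fk K f).map ι) (α.map ι) := by
    unfold NSq
    rw [nmu.2.2.2 K L ι (fk K f) α (hfm.map _)]
    exact hNs.map ι
  have hfm' : ((fk K f).map ι).Monic := (hfm.map _).map _
  have hfd' : ((fk K f).map ι).natDegree = 2 * g + 1 := by
    rw [(hfm.map _).natDegree_map, hfm.natDegree_map, hfd]
  have hodd : Odd ((fk K f).map ι).natDegree := by rw [hfd']; exact ⟨g, rfl⟩
  have key : ∃ s : L[X], (fk K f).map ι ∣ α.map ι - s ^ 2 := by
    rcases hcase with ⟨P, hP, ϖ, hC⟩ | hC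
    · obtain ⟨fO, hm, hdd, ho, -, -, h3, -, -⟩ := h2 R K P ϖ L O' ι hC f hfm
      exact h1 L O' _ hC.loc hC.cpl.complete _ 1 fO _ hfm' hodd one_ne_zero
        (by rw [scaleRoots_one]; exact ho.symm)
        (h3 (D.ρ P) (2 * g + 1) (hD.2.2.1 P hP) (hT' P hP)) hcop' hN'
    · obtain ⟨p, hp, hpt⟩ := top_lift hD hf
      have hirr : Irreducible (p.map (IsLocalRing.residue O)) := by
        rw [hpt]
        exact hD.2.2.2.2.2
      refine h1 L O' _ hC.loc hC.cpl.complete _ ((ι π) ^ h) (p.map (jm hC)) _ hfm' hodd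
        (pow_ne_zero _ hC.loc.pi_ne) ?_ (irr_inf hC p hirr) hcop' hN'
      change _ = (p.map (jm hC)).map (algebraMap O' L)
      have e1 : (p.map (jm hC)).map (algebraMap O' L) = (p.map (algebraMap O K)).map ι := by
        rw [Polynomial.map_map, Polynomial.map_map]
        congr 1
      rw [e1, hp, Polynomial.map_scaleRoots, map_pow]
      rw [(hfm.map _).leadingCoeff, map_one]
      exact one_ne_zero
  obtain ⟨s, hs⟩ := key
  -- an inverse of `s`
  have hcs : IsCoprime (s ^ 2) ((fk K f).map ι) := by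
    obtain ⟨A, hA⟩ := hs
    have e : s ^ 2 = α.map ι + (fk K f).map ι * (-A) := by linear_combination -hA
    rw [e]
    exact hcop'.add_mul_left_left _
  have hcs1 : IsCoprime s ((fk K f).map ι) := hcs.of_isCoprime_of_dvd_left (dvd_pow_self s two_ne_zero)
  obtain ⟨t, r, htr⟩ := hcs1
  refine ⟨1, 0, t, monic_one, isCoprime_one_left, one_dvd _, ?_⟩
  have e0 : HYP.kap ((1 : L[X]).comp (C (ι (algebraMap R K d)) * X)) = 1 := by
    rw [one_comp]
    unfold HYP.kap
    rw [natDegree_one, pow_zero, one_mul]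
  rw [e0]
  obtain ⟨A, hA⟩ := hs
  refine ⟨r * (1 + t * s) - A * t ^ 2, ?_⟩
  linear_combination -(t ^ 2) * hA - (1 + t * s) * htr

end Pool.PRK
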